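import Pool.Agent.Helper27.VF.Goals

/-!
# Packet VF-RNK (MP_266b34_co): the rank drops
-/

set_option autoImplicit false

namespace Pool.Agent.Helper35.VF

open Pool.Agent.Helper27.VF

universe u v

/-- an affine permutation -/
def aff {A M : Type*} [Group A] [AddCommGroup M] [DistribMulAction A M] (a : A) (m₀ : M) :
    Equiv.Perm M where
  toFun m := a • m + m₀
  invFun m := a⁻¹ • (m - m₀)
  left_inv m := by simp
  right_inv m := by simp

/-- the affine action -/
def Psi {A M X : Type*} [Group A] [AddCommGroup M] [DistribMulAction A M]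
    (θ : FreeGroup X →* A) (g : X → M) : FreeGroup X →* Equiv.Perm M :=
  FreeGroup.lift fun x => aff (θ (FreeGroup.of x)) (g x)

theorem Psi_of {A M X : Type*} [Group A] [AddCommGroup M] [DistribMulAction A M]
    (θ : FreeGroup X →* A) (g : X → M) (x : X) (m : M) :
    Psi θ g (FreeGroup.of x) m = θ (FreeGroup.of x) • m + g x := by
  unfold Psi
  rw [FreeGroup.lift_apply_of]
  rfl

theorem Psi_apply {A M X : Type*} [Group A] [AddCommGroup M] [DistribMulAction A M]
    (θ : FreeGroup X →* A) (g : X → M) (w : FreeGroup X) :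
    ∀ m : M, Psi θ g w m = θ w • m + Psi θ g w 0 := by
  induction w using FreeGroup.induction_on with
  | C1 => intro m; simp
  | of x => intro m; rw [Psi_of, Psi_of, smul_zero, zero_add]
  | inv_of x ih =>
    intro m
    have h1 : ∀ m : M, Psi θ g (FreeGroup.of x)⁻¹ m = (θ (FreeGroup.of x))⁻¹ • (m - g x) := by
      intro m
      rw [map_inv, Equiv.Perm.inv_eq_iff_eq, Psi_of, smul_inv_smul, sub_add_cancel]
    rw [h1, h1, map_inv, zero_sub, smul_sub, smul_neg, sub_eq_add_neg]
  | mul x y hx hy =>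
    intro m
    rw [map_mul, Equiv.Perm.mul_apply, Equiv.Perm.mul_apply, hy m, hx, hx (Psi θ g y 0), map_mul,
      mul_smul, smul_add, add_assoc]

/-- Derivations with given values on a basis. -/
theorem exists_der {A : Type u} [Group A] (B : Subgroup A) {X M : Type*} [AddCommGroup M]
    [DistribMulAction A M] (e : FreeGroup X ≃* B) (g : X → M) :
    ∃ f : B → M, IsDerOn B f ∧ ∀ x, f (e (FreeGroup.of x)) = g x := by
  refine ⟨fun b => Psi (B.subtype.comp e.toMonoidHom) g (e.symm b) 0, ?_, ?_⟩
  · intro b b'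
    change Psi _ g (e.symm (b * b')) 0 = Psi _ g (e.symm b) 0 + (b : A) • Psi _ g (e.symm b') 0
    rw [map_mul, map_mul, Equiv.Perm.mul_apply, Psi_apply _ _ (e.symm b)
      (Psi _ g (e.symm b') 0), add_comm]
    congr 2
    simp
  · intro x
    change Psi _ g (e.symm (e (FreeGroup.of x))) 0 = g x
    rw [e.symm_apply_apply, Psi_of, smul_zero, zero_add]

theorem der_one {A : Type u} [Group A] {M : Type*} [AddCommGroup M] [DistribMulAction A M]
    {δ : A → M} (h : IsDer δ) : δ 1 = 0 := by
  have := h 1 1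
  rw [one_mul, one_smul] at this
  exact left_eq_add.1 this

theorem der_inv {A : Type u} [Group A] {M : Type*} [AddCommGroup M] [DistribMulAction A M]
    {δ : A → M} (h : IsDer δ) (a : A) : δ a⁻¹ = - (a⁻¹ • δ a) := by
  have := h a⁻¹ a
  rw [inv_mul_cancel, der_one h] at this
  exact eq_neg_of_add_eq_zero_left this.symm

/-- Derivations are determined by their values on a basis. -/
theorem der_ext {A : Type u} [Group A] {X M : Type*} [AddCommGroup M] [DistribMulAction A M]
    (e : FreeGroup X ≃* A) {δ δ' : A → M} (h : IsDer δ) (h' : IsDer δ')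
    (hx : ∀ x, δ (e (FreeGroup.of x)) = δ' (e (FreeGroup.of x))) : δ = δ' := by
  have key : ∀ w : FreeGroup X, δ (e w) = δ' (e w) := by
    intro w
    induction w using FreeGroup.induction_on with
    | C1 => rw [map_one, der_one h, der_one h']
    | of x => exact hx x
    | inv_of x ih => rw [map_inv, der_inv h, der_inv h', hx x]
    | mul x y h1 h2 => rw [map_mul, h, h', h1, h2]
  funext a
  have := key (e.symm a)
  rwa [e.apply_symm_apply] at this

/-- The comparison of the values on the bases. -/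
theorem count {A : Type u} [Group A] (B : Subgroup A) {X : Type*} {m k : ℕ}
    (eA : FreeGroup (Fin m) ≃* A) (e : FreeGroup X ≃* B) (ι : Fin k ↪ X)
    (M : Type u) [AddCommGroup M] [DistribMulAction A M]
    (hext : ∀ f : B → M, IsDerOn B f → ∃ δ : A → M, IsDer δ ∧ ∀ b : B, δ b = f b) :
    ∃ Φ : (Fin k → M) → (Fin m → M), Function.Injective Φ ∧ ∀ g, ∃ δ : A → M, IsDer δ ∧
      (∀ i, δ (eA (FreeGroup.of i)) = Φ g i) ∧
      ∀ j, δ (e (FreeGroup.of (ι j)) : B) = g j := by
  have h1 : ∀ g : Fin k → M, ∃ δ : A → M, IsDer δ ∧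
      ∀ j, δ (e (FreeGroup.of (ι j)) : B) = g j := by
    intro g
    obtain ⟨f, hf, hfx⟩ := exists_der B e (Function.extend ι g 0)
    obtain ⟨δ, hδ, hδf⟩ := hext f hf
    refine ⟨δ, hδ, fun j => ?_⟩
    rw [hδf, hfx, ι.injective.extend_apply]
  choose δ hδ hδj using h1
  refine ⟨fun g i => δ g (eA (FreeGroup.of i)), ?_, fun g => ⟨δ g, hδ g, fun _ => rfl, hδj g⟩⟩
  intro g g' hgg
  have h2 : δ g = δ g' := der_ext eA (hδ g) (hδ g') fun i => congrFun hgg i
  funext j
  rw [← hδj g j, ← hδj g' j, h2]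

/-- the trivial action -/
abbrev trivAct (A M : Type*) [Group A] [AddCommGroup M] : DistribMulAction A M where
  smul _ m := m
  one_smul _ := rfl
  mul_smul _ _ _ := rfl
  smul_zero _ := rfl
  smul_add _ _ _ := rfl

/-- the action on the functions on a set with an action -/
abbrev funAct (A Q N : Type*) [Group A] [MulAction A Q] [AddCommGroup N] :
    DistribMulAction A (Q → N) where
  smul a F q := F (a⁻¹ • q)
  one_smul F := by
    funext q
    change F ((1 : A)⁻¹ • q) = F q
    rw [inv_one, one_smul]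
  mul_smul a b F := by
    funext q
    change F ((a * b)⁻¹ • q) = F (b⁻¹ • a⁻¹ • q)
    rw [mul_inv_rev, mul_smul]
  smul_zero _ := rfl
  smul_add _ _ _ := rfl

theorem fg_map {G G' : Type*} [Group G] [Group G'] (f : G →* G') {P : Subgroup G} (h : P.FG) :
    (P.map f).FG := by
  classical
  obtain ⟨S, hS⟩ := h
  exact ⟨S.image f, by rw [Finset.coe_image, ← MonoidHom.map_closure, hS]⟩

/-- Marshall Hall's theorem for a group isomorphic to a free group. -/
theorem hal' (hal : HalStmt) {A : Type u} [Group A] {m : ℕ} (eA : FreeGroup (Fin m) ≃* A)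
    (B : Subgroup A) (hfg : B.FG) (hB : B ≠ ⊤) :
    ∃ L : Subgroup A, B ≤ L ∧ L ≠ ⊤ ∧ L.FiniteIndex := by
  have h1 : (B.map eA.symm.toMonoidHom).FG := fg_map _ hfg
  have h2 : B.map eA.symm.toMonoidHom ≠ ⊤ := by
    intro h
    apply hB
    rw [eq_top_iff]
    intro a _
    have h3 : eA.symm a ∈ B.map eA.symm.toMonoidHom := by rw [h]; trivial
    obtain ⟨b, hb, hba⟩ := h3
    have : b = a := eA.symm.injective hba
    rw [← this]
    exact hb
  obtain ⟨L, hL1, hL2, hL3⟩ := hal m _ h1 h2
  refine ⟨L.comap eA.symm.toMonoidHom, ?_, ?_, ?_⟩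
  · intro b hb
    exact hL1 ⟨b, hb, rfl⟩
  · intro h
    apply hL2
    rw [eq_top_iff]
    intro w _
    have h3 : eA w ∈ L.comap eA.symm.toMonoidHom := by rw [h]; trivial
    have h4 : eA.symm (eA w) ∈ L := h3
    rwa [eA.symm_apply_apply] at h4
  · refine ⟨?_⟩
    rw [Subgroup.index_comap_of_surjective L (f := eA.symm.toMonoidHom) eA.symm.surjective]
    exact hL3.index_ne_zero

/-- **RNK.** -/
theorem rnk (hal : HalStmt) : RnkStmt.{u} := by
  intro m A _ hA B hB hext
  obtain ⟨eA⟩ := hA
  have hfree : IsFreeGroup A := (FreeGroupBasis.ofRepr eA.symm).isFreeGroup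
  have hfreeB : IsFreeGroup B := inferInstance
  obtain ⟨X, ⟨bs⟩⟩ := hfreeB.nonempty_basis
  have e : FreeGroup X ≃* B := bs.repr.symm
  have hno : ¬ Nonempty (Fin (m + 1) ↪ X) := by
    rintro ⟨ι⟩
    let _ := trivAct A (ULift.{u} (ZMod 2))
    obtain ⟨Φ, hΦ, -⟩ := count B eA e ι (ULift.{u} (ZMod 2))
      (fun f hf => hext (ULift.{u} (ZMod 2)) f hf)
    have h1 := Fintype.card_le_of_injective Φ hΦ
    rw [Fintype.card_fun, Fintype.card_fun, Fintype.card_fin, Fintype.card_fin,
      Fintype.card_ulift, ZMod.card] at h1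
    have h2 : 2 ^ m < 2 ^ (m + 1) := Nat.pow_lt_pow_right (by norm_num) (Nat.lt_succ_self m)
    omega
  have hfin : Finite X := by
    by_contra hinf
    rw [not_finite_iff_infinite] at hinf
    exact hno ⟨Fin.valEmbedding.trans (Infinite.natEmbedding X)⟩
  have := Fintype.ofFinite X
  have hle : Fintype.card X ≤ m := by
    by_contra hlt
    apply hno
    apply Function.Embedding.nonempty_of_card_le
    rw [Fintype.card_fin]
    omega
  have hne : Fintype.card X ≠ m := by
    intro heq
    -- `B` is finitely generated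
    have hfg : B.FG := by
      rw [← Subgroup.range_subtype B]
      have hBfg : Group.FG B := Group.fg_of_surjective (f := e.toMonoidHom) e.surjective
      rw [MonoidHom.range_eq_map]
      exact fg_map _ (Group.FG.out (G := B))
    obtain ⟨L, hBL, hLne, hLfin⟩ := hal' hal eA B hfg hB
    have hfinQ : Finite (A ⧸ L) := inferInstance
    let _ := funAct A (A ⧸ L) (ULift.{0} (ZMod 2))
    have hfinM : Finite (A ⧸ L → ULift.{0} (ZMod 2)) := inferInstance
    let ι : Fin m ↪ X := ((Fin.castOrderIso heq.symm).toEquiv.trans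
      (Fintype.equivFin X).symm).toEmbedding
    have hιs : ∀ x, ∃ j, ι j = x := fun x =>
      ⟨((Fin.castOrderIso heq.symm).toEquiv.trans (Fintype.equivFin X).symm).symm x,
        Equiv.apply_symm_apply _ x⟩
    obtain ⟨Φ, hΦ, hΦδ⟩ := count B eA e ι (A ⧸ L → ULift.{0} (ZMod 2))
      (fun f hf => hext _ f hf)
    have hsur : Function.Surjective Φ := Finite.surjective_of_injective hΦ
    -- a derivation which vanishes on the basis of `B` is zero
    have hzero : ∀ δ : A → (A ⧸ L → ULift.{0} (ZMod 2)), IsDer δ →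
        (∀ j, δ (e (FreeGroup.of (ι j)) : B) = 0) → δ = 0 := by
      have h0 : ∀ δ : A → (A ⧸ L → ULift.{0} (ZMod 2)), IsDer δ →
          (∀ j, δ (e (FreeGroup.of (ι j)) : B) = 0) → ∀ i, δ (eA (FreeGroup.of i)) = Φ 0 i := by
        intro δ hδ hδ0 i
        obtain ⟨g, hg⟩ := hsur fun i => δ (eA (FreeGroup.of i))
        obtain ⟨δ', hδ', h1, h2⟩ := hΦδ g
        have h3 : δ' = δ := der_ext eA hδ' hδ fun i => by rw [h1, hg]
        have h4 : g = 0 := by
          funext j
          rw [← h2 j, h3, hδ0 j]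
          rfl
        rw [← h4, hg]
      intro δ hδ hδ0
      have hz : IsDer (0 : A → (A ⧸ L → ULift.{0} (ZMod 2))) := by
        intro b b'
        change (0 : A ⧸ L → ULift.{0} (ZMod 2)) = 0 + b • 0
        rw [smul_zero, add_zero]
      refine der_ext eA hδ hz fun i => ?_
      rw [h0 δ hδ hδ0 i, h0 0 hz (fun _ => rfl) i]
    classical
    let v : A ⧸ L → ULift.{0} (ZMod 2) := fun q => if q = ((1 : A) : A ⧸ L) then 1 else 0
    have hder : IsDer fun a : A => a • v - v := by
      intro b b'
      change (b * b') • v - v = (b • v - v) + b • (b' • v - v)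
      rw [mul_smul, smul_sub]
      abel
    have hvan : ∀ b : B, (b : A) • v - v = 0 := by
      intro b
      rw [sub_eq_zero]
      funext q
      change v ((b : A)⁻¹ • q) = v q
      have hb : ((b : A) : A ⧸ L) = ((1 : A) : A ⧸ L) := by
        rw [QuotientGroup.eq]
        rw [mul_one]
        exact L.inv_mem (hBL b.2)
      have hiff : ((b : A)⁻¹ • q = ((1 : A) : A ⧸ L)) ↔ q = ((1 : A) : A ⧸ L) := by
        rw [inv_smul_eq_iff]
        have : (b : A) • ((1 : A) : A ⧸ L) = ((1 : A) : A ⧸ L) := by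
          rw [MulAction.Quotient.smul_coe, smul_eq_mul, mul_one, hb]
        rw [this]
      change (if (b : A)⁻¹ • q = ((1 : A) : A ⧸ L) then (1 : ULift.{0} (ZMod 2)) else 0) =
        if q = ((1 : A) : A ⧸ L) then 1 else 0
      by_cases hq : q = ((1 : A) : A ⧸ L)
      · rw [if_pos hq, if_pos (hiff.2 hq)]
      · rw [if_neg hq, if_neg (fun h => hq (hiff.1 h))]
    have hall := hzero _ hder fun j => hvan _
    -- contradiction at an element outside `L`
    apply hLne
    rw [eq_top_iff]
    intro a _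
    have h1 := congrFun (congrFun hall a) (a : A ⧸ L)
    change v (a⁻¹ • (a : A ⧸ L)) - v (a : A ⧸ L) = 0 at h1
    rw [MulAction.Quotient.smul_coe, smul_eq_mul, inv_mul_cancel] at h1
    by_contra haL
    have h2 : ¬ ((a : A ⧸ L) = ((1 : A) : A ⧸ L)) := by
      intro h
      rw [eq_comm, QuotientGroup.eq, inv_one, one_mul] at h
      exact haL h
    change (if ((1 : A) : A ⧸ L) = ((1 : A) : A ⧸ L) then (1 : ULift.{0} (ZMod 2)) else 0) -
      (if (a : A ⧸ L) = ((1 : A) : A ⧸ L) then 1 else 0) = 0 at h1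
    rw [if_pos rfl, if_neg h2, sub_zero] at h1
    exact one_ne_zero (congrArg ULift.down h1)
  exact ⟨Fintype.card X, lt_of_le_of_ne hle hne,
    ⟨(FreeGroup.freeGroupCongr (Fintype.equivFin X).symm).trans e⟩⟩

end Pool.Agent.Helper35.VF
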